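import Pool.Agent.Helper57.REC.Stmts6b

/-!
# Dictionary: completely reducible matrix representations and semisimple modules
[helper51]
-/

set_option autoImplicit false

open scoped Classical MonoidAlgebra

namespace REC

open MU

variable {G K : Type} [Group G] [Field K]

/-- the representation on column vectors -/
noncomputable def rp {n : ℕ} (r : G →* Matrix (Fin n) (Fin n) K) :
    Representation K G (Fin n → K) :=
  (Matrix.toLinAlgEquiv' (R := K) (n := Fin n)).toAlgHom.toRingHom.toMonoidHom.comp r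

theorem rp_apply {n : ℕ} (r : G →* Matrix (Fin n) (Fin n) K) (g : G) (v : Fin n → K) :
    rp r g v = (r g).mulVec v := rfl

/-- an equivariant matrix as a linear map of modules -/
noncomputable def eqm {n m : ℕ} {r : G →* Matrix (Fin n) (Fin n) K}
    {s : G →* Matrix (Fin m) (Fin m) K} (u : Matrix (Fin m) (Fin n) K)
    (hu : ∀ g, u * r g = s g * u) : (rp r).asModule →ₗ[K[G]] (rp s).asModule :=
  MonoidAlgebra.equivariantOfLinearOfComm
    (((rp s).asModuleEquiv.symm : (Fin m → K) →ₗ[K] (rp s).asModule) ∘ₗ u.mulVecLin ∘ₗ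
      ((rp r).asModuleEquiv : (rp r).asModule →ₗ[K] (Fin n → K)))
    (by
      intro g v
      rw [Representation.single_smul, Representation.single_smul, one_smul, one_smul]
      show u.mulVec ((r g).mulVec v) = (s g).mulVec (u.mulVec v)
      rw [Matrix.mulVec_mulVec, Matrix.mulVec_mulVec, hu])

theorem eqm_apply {n m : ℕ} {r : G →* Matrix (Fin n) (Fin n) K}
    {s : G →* Matrix (Fin m) (Fin m) K} (u : Matrix (Fin m) (Fin n) K)
    (hu : ∀ g, u * r g = s g * u) (v : Fin n → K) :
    (eqm u hu ((rp r).asModuleEquiv.symm v)) = (rp s).asModuleEquiv.symm (u.mulVec v) := rfl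

/-- every linear map of modules is an equivariant matrix -/
theorem exists_eqm {n m : ℕ} {r : G →* Matrix (Fin n) (Fin n) K}
    {s : G →* Matrix (Fin m) (Fin m) K} (f : (rp r).asModule →ₗ[K[G]] (rp s).asModule) :
    ∃ (u : Matrix (Fin m) (Fin n) K) (hu : ∀ g, u * r g = s g * u), f = eqm u hu := by
  let f' : (Fin n → K) →ₗ[K] (Fin m → K) :=
    ((rp s).asModuleEquiv : (rp s).asModule →ₗ[K] (Fin m → K)) ∘ₗ
      (f.restrictScalars K) ∘ₗ ((rp r).asModuleEquiv.symm : (Fin n → K) →ₗ[K] (rp r).asModule)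
  have hf' : ∀ v, f' v = (rp s).asModuleEquiv (f ((rp r).asModuleEquiv.symm v)) := fun v => rfl
  have hu : ∀ g, (LinearMap.toMatrix' f') * r g = s g * (LinearMap.toMatrix' f') := by
    intro g
    apply Matrix.toLin'.injective
    rw [Matrix.toLin'_mul, Matrix.toLin'_mul, Matrix.toLin'_toMatrix']
    apply LinearMap.ext
    intro v
    show f' ((r g).mulVec v) = (s g).mulVec (f' v)
    have h1 : (rp r).asModuleEquiv.symm ((r g).mulVec v) =
        MonoidAlgebra.of K G g • (rp r).asModuleEquiv.symm v := by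
      rw [← Representation.asModuleEquiv_symm_map_rho]
      rfl
    rw [hf', hf', h1, f.map_smul]
    have h2 : ∀ w : (rp s).asModule, (rp s).asModuleEquiv (MonoidAlgebra.of K G g • w) =
        (s g).mulVec ((rp s).asModuleEquiv w) := by
      intro w
      rw [Representation.asModuleEquiv_map_smul, Representation.asAlgebraHom_of]
      rfl
    rw [h2]
  refine ⟨LinearMap.toMatrix' f', hu, ?_⟩
  apply LinearMap.ext
  intro v
  have h3 : eqm (LinearMap.toMatrix' f') hu ((rp r).asModuleEquiv.symm ((rp r).asModuleEquiv v)) =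
      (rp s).asModuleEquiv.symm ((LinearMap.toMatrix' f').mulVec ((rp r).asModuleEquiv v)) := rfl
  rw [LinearEquiv.symm_apply_apply, LinearMap.toMatrix'_mulVec, hf'] at h3
  rw [h3, LinearEquiv.symm_apply_apply, LinearEquiv.symm_apply_apply]

/-- the action on a stable subspace is a representation -/
noncomputable def subHom {n m : ℕ} (r : G →* Matrix (Fin n) (Fin n) K)
    (B : Matrix (Fin n) (Fin m) K) (A : G → Matrix (Fin m) (Fin m) K) (h : IsSub r B A) :
    G →* Matrix (Fin m) (Fin m) K where
  toFun := A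
  map_one' := by
    obtain ⟨⟨C, hC⟩, h2⟩ := h
    have h3 := h2 1
    rw [map_one, Matrix.one_mul] at h3
    calc A 1 = (C * B) * A 1 := by rw [hC, one_mul]
      _ = C * (B * A 1) := by rw [Matrix.mul_assoc]
      _ = 1 := by rw [← h3, hC]
  map_mul' := by
    intro x y
    obtain ⟨⟨C, hC⟩, h2⟩ := h
    have h3 := h2 (x * y)
    rw [map_mul] at h3
    calc A (x * y) = (C * B) * A (x * y) := by rw [hC, one_mul]
      _ = C * (B * A (x * y)) := by rw [Matrix.mul_assoc]
      _ = C * (r x * (r y * B)) := by rw [← h3, Matrix.mul_assoc]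
      _ = C * (B * (A x * A y)) := by
          rw [h2 y, ← Matrix.mul_assoc (r x), h2 x, Matrix.mul_assoc]
      _ = (C * B) * (A x * A y) := by rw [Matrix.mul_assoc]
      _ = A x * A y := by rw [hC, one_mul]

theorem subHom_apply {n m : ℕ} (r : G →* Matrix (Fin n) (Fin n) K)
    (B : Matrix (Fin n) (Fin m) K) (A : G → Matrix (Fin m) (Fin m) K) (h : IsSub r B A) (g : G) :
    subHom r B A h g = A g := rfl

/-- a basis of a stable submodule -/
theorem exists_isSub {n : ℕ} (r : G →* Matrix (Fin n) (Fin n) K)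
    (W : Submodule K (Fin n → K)) (hW : ∀ g, ∀ v ∈ W, (r g).mulVec v ∈ W) :
    ∃ (m : ℕ) (B : Matrix (Fin n) (Fin m) K) (A : G → Matrix (Fin m) (Fin m) K),
      IsSub r B A ∧ LinearMap.range B.mulVecLin = W := by
  let m := Module.finrank K W
  let b : Module.Basis (Fin m) K W := Module.finBasis K W
  let e : (Fin m → K) ≃ₗ[K] W := b.equivFun.symm
  let fB : (Fin m → K) →ₗ[K] (Fin n → K) := W.subtype ∘ₗ (e : (Fin m → K) →ₗ[K] W)
  have hinj : Function.Injective fB := by
    intro x y hxy
    exact e.injective (Subtype.ext hxy)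
  have hrange : LinearMap.range fB = W := by
    rw [LinearMap.range_comp, LinearEquiv.range, Submodule.map_top, Submodule.range_subtype]
  let fA : G → (Fin m → K) →ₗ[K] (Fin m → K) := fun g =>
    (e.symm : W →ₗ[K] (Fin m → K)) ∘ₗ ((r g).mulVecLin.restrict (hW g)) ∘ₗ
      (e : (Fin m → K) →ₗ[K] W)
  refine ⟨m, LinearMap.toMatrix' fB, fun g => LinearMap.toMatrix' (fA g), ⟨?_, ?_⟩, ?_⟩
  · obtain ⟨C, hC⟩ := LinearMap.exists_leftInverse_of_injective fB (LinearMap.ker_eq_bot.2 hinj)
    refine ⟨LinearMap.toMatrix' C, ?_⟩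
    rw [← LinearMap.toMatrix'_comp, hC, LinearMap.toMatrix'_id]
  · intro g
    apply Matrix.toLin'.injective
    rw [Matrix.toLin'_mul, Matrix.toLin'_mul, Matrix.toLin'_toMatrix', Matrix.toLin'_toMatrix']
    apply LinearMap.ext
    intro v
    show (r g).mulVec ((e v : W) : Fin n → K) =
      ((e (e.symm (((r g).mulVecLin.restrict (hW g)) (e v))) : W) : Fin n → K)
    rw [LinearEquiv.apply_symm_apply]
    rfl
  · have : (LinearMap.toMatrix' fB).mulVecLin = fB := by
      rw [← Matrix.toLin'_apply', Matrix.toLin'_toMatrix']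
    rw [this, hrange]

/-- completely reducible matrix representations are semisimple modules -/
theorem isSS_iff {n : ℕ} (r : G →* Matrix (Fin n) (Fin n) K) :
    IsSS r ↔ IsSemisimpleModule K[G] (rp r).asModule := by
  constructor
  · intro h
    rw [isSemisimpleModule_iff]
    refine ⟨fun W => ?_⟩
    let W' : Submodule K (Fin n → K) :=
      (W.restrictScalars K).map ((rp r).asModuleEquiv : (rp r).asModule →ₗ[K] (Fin n → K))
    have hmem : ∀ v, v ∈ W' ↔ (rp r).asModuleEquiv.symm v ∈ W := by
      intro v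
      constructor
      · rintro ⟨w, hw, rfl⟩
        exact hw
      · intro hv
        exact ⟨_, hv, rfl⟩
    have hW' : ∀ g, ∀ v ∈ W', (r g).mulVec v ∈ W' := by
      intro g v hv
      rw [hmem] at hv ⊢
      have h1 : (rp r).asModuleEquiv.symm ((r g).mulVec v) =
          MonoidAlgebra.of K G g • (rp r).asModuleEquiv.symm v := by
        rw [← Representation.asModuleEquiv_symm_map_rho]
        rfl
      rw [h1]
      exact W.smul_mem _ hv
    obtain ⟨m, B, A, hBA, hr⟩ := exists_isSub r W' hW'
    obtain ⟨C, hCB, hC⟩ := h m B A hBA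
    have hC' : ∀ g, C * r g = subHom r B A hBA g * C := hC
    let c := eqm C hC'
    refine ⟨LinearMap.ker c, ?_⟩
    rw [isCompl_iff, Submodule.disjoint_def, Submodule.codisjoint_iff_exists_add_eq]
    constructor
    · intro x hx hcx
      have hx' : (rp r).asModuleEquiv x ∈ W' := (hmem _).2 hx
      rw [← hr] at hx'
      obtain ⟨y, hy⟩ := hx'
      have hy' : B.mulVec y = (rp r).asModuleEquiv x := hy
      have h2 : C.mulVec ((rp r).asModuleEquiv x) = 0 := hcx
      rw [← hy', Matrix.mulVec_mulVec, hCB, Matrix.one_mulVec] at h2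
      rw [h2, Matrix.mulVec_zero] at hy'
      exact (rp r).asModuleEquiv.injective (by rw [← hy', map_zero])
    · intro z
      let z' := (rp r).asModuleEquiv z
      have hz1 : (rp r).asModuleEquiv.symm (B.mulVec (C.mulVec z')) ∈ W := by
        rw [← hmem, ← hr]
        exact ⟨C.mulVec z', rfl⟩
      refine ⟨_, z - (rp r).asModuleEquiv.symm (B.mulVec (C.mulVec z')), hz1, ?_, ?_⟩
      · rw [LinearMap.mem_ker]
        show C.mulVec (z' - B.mulVec (C.mulVec z')) = 0
        rw [Matrix.mulVec_sub, Matrix.mulVec_mulVec, hCB, Matrix.one_mulVec, sub_self]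
      · rw [add_sub_cancel]
  · intro h m B A hBA
    have hB : ∀ g, B * subHom r B A hBA g = r g * B := fun g => (hBA.2 g).symm
    let f : (rp (subHom r B A hBA)).asModule →ₗ[K[G]] (rp r).asModule := eqm B hB
    obtain ⟨C0, hC0⟩ := hBA.1
    have hinj : Function.Injective f := by
      intro x y hxy
      have h1 : B.mulVec x = B.mulVec y := hxy
      have h2 : C0.mulVec (B.mulVec x) = C0.mulVec (B.mulVec y) := by rw [h1]
      rw [Matrix.mulVec_mulVec, Matrix.mulVec_mulVec, hC0, Matrix.one_mulVec,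
        Matrix.one_mulVec] at h2
      exact h2
    obtain ⟨c, hc⟩ := IsSemisimpleModule.extension_property f hinj LinearMap.id
    obtain ⟨C, hC, rfl⟩ := exists_eqm c
    refine ⟨C, ?_, hC⟩
    apply Matrix.toLin'.injective
    apply LinearMap.ext
    intro v
    rw [Matrix.toLin'_mul, Matrix.toLin'_one]
    exact LinearMap.congr_fun hc v

/-- direct sums of completely reducible representations -/
theorem isSS_sum {n k : ℕ} {m : Fin k → ℕ} (r : G →* Matrix (Fin n) (Fin n) K)
    (s : ∀ i, G →* Matrix (Fin (m i)) (Fin (m i)) K) (P : ∀ i, Matrix (Fin (m i)) (Fin n) K)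
    (Q : ∀ i, Matrix (Fin n) (Fin (m i)) K) (h1 : ∑ i, Q i * P i = 1)
    (h2 : ∀ i g, Q i * s i g = r g * Q i) (hs : ∀ i, IsSS (s i)) : IsSS r := by
  rw [isSS_iff]
  have h3 : ∀ i, IsSemisimpleModule K[G] (rp (s i)).asModule := fun i => (isSS_iff _).1 (hs i)
  refine isSemisimpleModule_of_isSemisimpleModule_submodule'
    (p := fun i => LinearMap.range (eqm (Q i) (h2 i))) (fun i => ?_) ?_
  · have := h3 i
    exact IsSemisimpleModule.range _
  · rw [eq_top_iff]
    intro v _
    let v' := (rp r).asModuleEquiv v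
    have h4 : v = ∑ i, (eqm (Q i) (h2 i))
        ((rp (s i)).asModuleEquiv.symm ((P i).mulVec v')) := by
      show v' = ∑ i, (Q i).mulVec ((P i).mulVec v')
      calc v' = (∑ i, Q i * P i).mulVec v' := by rw [h1, Matrix.one_mulVec]
        _ = ∑ i, (Q i * P i).mulVec v' := by rw [Matrix.sum_mulVec]
        _ = ∑ i, (Q i).mulVec ((P i).mulVec v') := by
            refine Finset.sum_congr rfl fun i _ => ?_
            rw [Matrix.mulVec_mulVec]
    rw [h4]
    refine Submodule.sum_mem _ fun i _ => ?_
    exact Submodule.mem_iSup_of_mem i ⟨_, rfl⟩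

end REC
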