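import Pool.Agent.Helper85.REC.Stmts10

/-!
# REC, part 9, row IDL: lifting idempotents
[helper51]
-/

set_option autoImplicit false

open scoped Classical
open Filter

namespace REC

open MU

theorem toZMod_zero_iff {l : ℕ} [Fact l.Prime] (a : ℤ_[l]) :
    PadicInt.toZMod (p := l) a = 0 ↔ (l : ℤ_[l]) ∣ a := by
  rw [← RingHom.mem_ker, PadicInt.ker_toZMod, PadicInt.maximalIdeal_eq_span_p,
    Ideal.mem_span_singleton]

theorem norm_pow_mul_le {l : ℕ} [Fact l.Prime] (k : ℕ) (a : ℤ_[l]) :
    ‖(l : ℤ_[l]) ^ k * a‖ ≤ (1 / (l : ℝ)) ^ k := by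
  rw [norm_mul, PadicInt.norm_p_pow]
  have h1 : ((l : ℝ)) ^ (-(k : ℤ)) = (1 / (l : ℝ)) ^ k := by
    rw [zpow_neg, zpow_natCast, one_div, inv_pow]
  rw [h1]
  exact mul_le_of_le_one_right (by positivity) (PadicInt.norm_le_one a)

/-- the iteration -/
noncomputable def itE {l n : ℕ} [Fact l.Prime] (x : Matrix (Fin n) (Fin n) ℤ_[l]) :
    ℕ → Matrix (Fin n) (Fin n) ℤ_[l]
  | 0 => x
  | k + 1 => 3 * (itE x k * itE x k) - 2 * (itE x k * itE x k * itE x k)

theorem itE_sq {l n : ℕ} [Fact l.Prime] (x : Matrix (Fin n) (Fin n) ℤ_[l])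
    (hx : ∃ z : Matrix (Fin n) (Fin n) ℤ_[l], x * x - x = (l : ℤ_[l]) • z) (k : ℕ) :
    ∃ z : Matrix (Fin n) (Fin n) ℤ_[l],
      itE x k * itE x k - itE x k = ((l : ℤ_[l]) ^ (k + 1)) • z := by
  induction k with
  | zero =>
    obtain ⟨z, hz⟩ := hx
    exact ⟨z, by rw [zero_add, pow_one, ← hz]; rfl⟩
  | succ k ih =>
    obtain ⟨z, hz⟩ := ih
    refine ⟨((l : ℤ_[l]) ^ k) • (z * z * (4 * (itE x k * itE x k) - 4 * itE x k - 3)), ?_⟩
    have h1 : itE x (k + 1) * itE x (k + 1) - itE x (k + 1) =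
        (itE x k * itE x k - itE x k) * (itE x k * itE x k - itE x k) *
          (4 * (itE x k * itE x k) - 4 * itE x k - 3) := by
      show (3 * (itE x k * itE x k) - 2 * (itE x k * itE x k * itE x k)) *
        (3 * (itE x k * itE x k) - 2 * (itE x k * itE x k * itE x k)) -
        (3 * (itE x k * itE x k) - 2 * (itE x k * itE x k * itE x k)) = _
      noncomm_ring
    rw [h1, hz]
    rw [Matrix.smul_mul, Matrix.mul_smul, smul_smul, Matrix.smul_mul, smul_smul]
    congr 1
    ring

theorem itE_sub {l n : ℕ} [Fact l.Prime] (x : Matrix (Fin n) (Fin n) ℤ_[l])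
    (hx : ∃ z : Matrix (Fin n) (Fin n) ℤ_[l], x * x - x = (l : ℤ_[l]) • z) (k : ℕ) :
    ∃ z : Matrix (Fin n) (Fin n) ℤ_[l],
      itE x (k + 1) - itE x k = ((l : ℤ_[l]) ^ (k + 1)) • z := by
  obtain ⟨z, hz⟩ := itE_sq x hx k
  refine ⟨z * (1 - 2 * itE x k), ?_⟩
  have h1 : itE x (k + 1) - itE x k = (itE x k * itE x k - itE x k) * (1 - 2 * itE x k) := by
    show (3 * (itE x k * itE x k) - 2 * (itE x k * itE x k * itE x k)) - itE x k = _
    noncomm_ring
  rw [h1, hz, Matrix.smul_mul]

theorem itE_comm {l n : ℕ} [Fact l.Prime] (x y : Matrix (Fin n) (Fin n) ℤ_[l])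
    (hy : y * x = x * y) (k : ℕ) : y * itE x k = itE x k * y := by
  have h : Commute y (itE x k) := by
    induction k with
    | zero => exact hy
    | succ k ih =>
      show Commute y (3 * (itE x k * itE x k) - 2 * (itE x k * itE x k * itE x k))
      refine Commute.sub_right ?_ ?_
      · exact (Commute.ofNat_right y 3).mul_right (ih.mul_right ih)
      · exact (Commute.ofNat_right y 2).mul_right ((ih.mul_right ih).mul_right ih)
  exact h

theorem st_IDL : ST_IDL := by
  intro n l hl x hx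
  have hx0 : ∃ z : Matrix (Fin n) (Fin n) ℤ_[l], x * x - x = (l : ℤ_[l]) • z := by
    have h1 : ∀ i j, (l : ℤ_[l]) ∣ (x * x - x) i j := by
      intro i j
      rw [← toZMod_zero_iff, Matrix.sub_apply, map_sub, sub_eq_zero]
      have h2 : (x * x).map (PadicInt.toZMod (p := l)) = x.map (PadicInt.toZMod (p := l)) := by
        rw [Matrix.map_mul, hx]
      exact congrFun (congrFun h2 i) j
    choose z hz using h1
    refine ⟨Matrix.of z, ?_⟩
    ext i j
    rw [hz i j]
    rfl
  have hsub := itE_sub x hx0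
  choose d hd using hsub
  have hsq := itE_sq x hx0
  choose s hs using hsq
  have hl1 : (1 : ℝ) / l < 1 := by
    rw [div_lt_one (by exact_mod_cast hl.out.pos)]
    exact_mod_cast hl.out.one_lt
  have hl0 : (0 : ℝ) ≤ 1 / l := by positivity
  have hcau : ∀ i j, CauchySeq (fun k => itE x k i j) := by
    intro i j
    refine cauchySeq_of_le_geometric (1 / (l : ℝ)) 1 hl1 ?_
    intro k
    rw [dist_comm, dist_eq_norm, ← Matrix.sub_apply, hd k, Matrix.smul_apply, smul_eq_mul,
      one_mul]
    refine (norm_pow_mul_le _ _).trans ?_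
    exact pow_le_pow_of_le_one hl0 hl1.le (Nat.le_succ k)
  have hlim : ∀ i j, ∃ a, Tendsto (fun k => itE x k i j) atTop (nhds a) := fun i j =>
    cauchySeq_tendsto_of_complete (hcau i j)
  choose a ha using hlim
  let e : Matrix (Fin n) (Fin n) ℤ_[l] := Matrix.of a
  have he : Tendsto (fun k => itE x k) atTop (nhds e) :=
    tendsto_pi_nhds.2 fun i => tendsto_pi_nhds.2 fun j => ha i j
  refine ⟨e, ?_, ?_, ?_⟩
  · have h1 : Tendsto (fun k => itE x k * itE x k) atTop (nhds (e * e)) := by
      have := he.prodMk_nhds he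
      exact ((continuous_fst.matrix_mul continuous_snd).tendsto (e, e)).comp this
    have h2 : Tendsto (fun k => ((l : ℤ_[l]) ^ (k + 1)) • s k) atTop
        (nhds (0 : Matrix (Fin n) (Fin n) ℤ_[l])) := by
      refine tendsto_pi_nhds.2 fun i => tendsto_pi_nhds.2 fun j => ?_
      have h3 : Tendsto (fun k : ℕ => (1 / (l : ℝ)) ^ (k + 1)) atTop (nhds 0) :=
        (tendsto_pow_atTop_nhds_zero_of_lt_one hl0 hl1).comp (tendsto_add_atTop_nat 1)
      exact squeeze_zero_norm (fun k => norm_pow_mul_le (k + 1) (s k i j)) h3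
    have h3 : Tendsto (fun k => itE x k * itE x k) atTop (nhds (e + 0)) := by
      have h4 := he.add h2
      refine h4.congr fun k => ?_
      rw [← hs k]
      abel
    have := tendsto_nhds_unique h1 h3
    rw [this, add_zero]
  · ext i j
    have h1 : ∀ k, PadicInt.toZMod (p := l) (itE x k i j) = PadicInt.toZMod (p := l) (x i j) := by
      intro k
      induction k with
      | zero => rfl
      | succ k ih =>
        rw [← ih, ← sub_eq_zero, ← map_sub, toZMod_zero_iff, ← Matrix.sub_apply, hd k,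
          Matrix.smul_apply, smul_eq_mul]
        exact Dvd.dvd.mul_right (dvd_pow_self _ (Nat.succ_ne_zero k)) _
    obtain ⟨N, hN⟩ := (Metric.tendsto_atTop.1 (ha i j)) 1 one_pos
    have h2 := hN N le_rfl
    rw [dist_eq_norm, PadicInt.norm_lt_one_iff_dvd, ← toZMod_zero_iff, map_sub, sub_eq_zero,
      h1 N] at h2
    rw [Matrix.map_apply, Matrix.map_apply, h2]
    rfl
  · intro y hy
    have h1 : Tendsto (fun k => y * itE x k) atTop (nhds (y * e)) :=
      ((continuous_const.matrix_mul continuous_id).tendsto e).comp he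
    have h2 : Tendsto (fun k => itE x k * y) atTop (nhds (e * y)) :=
      ((continuous_id.matrix_mul continuous_const).tendsto e).comp he
    refine tendsto_nhds_unique h1 (h2.congr fun k => ?_)
    rw [itE_comm x y hy k]

end REC
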