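import Pool.Agent.Helper85.REC.Stmts10
import Pool.Agent.Helper51.REC.Dict

/-!
# REC, part 9, row SUM: direct sums
[helper51]
-/

set_option autoImplicit false

open scoped Classical
open NumberField Polynomial

namespace REC

open Pool.Agent.Helper13.ZL (Pl q)
open MU

theorem sum_inclusion {R : Type} [CommRing R] {n k : ℕ} {m : Fin k → ℕ}
    (P : ∀ i, Matrix (Fin (m i)) (Fin n) R) (Q : ∀ i, Matrix (Fin n) (Fin (m i)) R)
    (h1 : ∀ i, P i * Q i = 1) (h2 : ∀ i j, i ≠ j → P i * Q j = 0) (h3 : ∑ i, Q i * P i = 1)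
    (X : Matrix (Fin n) (Fin n) R) (Y : ∀ i, Matrix (Fin (m i)) (Fin (m i)) R)
    (h4 : ∀ i, P i * X = Y i * P i) (i : Fin k) : Q i * Y i = X * Q i := by
  symm
  calc X * Q i = (∑ j, Q j * P j) * (X * Q i) := by rw [h3, Matrix.one_mul]
    _ = ∑ j, Q j * (Y j * (P j * Q i)) := by
        rw [Matrix.sum_mul]
        refine Finset.sum_congr rfl fun j _ => ?_
        rw [Matrix.mul_assoc, ← Matrix.mul_assoc (P j), h4, Matrix.mul_assoc (Y j)]
    _ = Q i * (Y i * (P i * Q i)) := by
        refine Finset.sum_eq_single i (fun j _ hj => ?_) (fun hi => absurd (Finset.mem_univ i) hi)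
        rw [h2 j i hj, Matrix.mul_zero, Matrix.mul_zero]
    _ = Q i * Y i := by rw [h1, Matrix.mul_one]

theorem map_inj_padic {l n m : ℕ} [Fact l.Prime] {A B : Matrix (Fin n) (Fin m) ℤ_[l]}
    (h : A.map (algebraMap ℤ_[l] ℚ_[l]) = B.map (algebraMap ℤ_[l] ℚ_[l])) : A = B :=
  Matrix.map_injective (IsFractionRing.injective ℤ_[l] ℚ_[l]) h

/-- the sum of the denominators -/
def dens {n m : ℕ} (A : Matrix (Fin n) (Fin m) ℚ) : ℕ := ∑ i, ∑ j, (A i j).den

theorem exists_lift {l n m : ℕ} [Fact l.Prime] (A : Matrix (Fin n) (Fin m) ℚ)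
    (h : dens A < l) : ∃ A' : Matrix (Fin n) (Fin m) ℤ_[l],
      A'.map (algebraMap ℤ_[l] ℚ_[l]) = A.map (algebraMap ℚ ℚ_[l]) := by
  have h1 : ∀ i j, ‖((A i j : ℚ) : ℚ_[l])‖ ≤ 1 := by
    intro i j
    apply Padic.norm_rat_le_one
    intro h2
    have h3 := Nat.le_of_dvd (A i j).den_pos h2
    have h4 : (A i j).den ≤ ∑ j, (A i j).den :=
      Finset.single_le_sum (f := fun j => (A i j).den) (fun _ _ => Nat.zero_le _)
        (Finset.mem_univ j)
    have h5 : ∑ j, (A i j).den ≤ dens A :=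
      Finset.single_le_sum (f := fun i => ∑ j, (A i j).den) (fun _ _ => Nat.zero_le _)
        (Finset.mem_univ i)
    omega
  refine ⟨Matrix.of fun i j => ⟨((A i j : ℚ) : ℚ_[l]), h1 i j⟩, ?_⟩
  ext i j
  rfl

theorem st_SUM (hIDL : ST_IDL) : ST_SUM := by
  intro F _ _ S n w h M r m h' M' hsum hss hhlp
  obtain ⟨P, Q, hPQ, hPQ0, hQP, hP⟩ := hsum
  constructor
  · intro l _
    have h1 : ∑ i, (Q i).map (algebraMap ℚ ℚ_[l]) * (P i).map (algebraMap ℚ ℚ_[l]) = 1 := by
      have := congrArg (fun X : Matrix (Fin n) (Fin n) ℚ => X.map (algebraMap ℚ ℚ_[l])) hQP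
      rw [Matrix.map_one _ (map_zero _) (map_one _)] at this
      rw [← this]
      have h5 : ∀ X : Matrix (Fin n) (Fin n) ℚ,
          X.map (algebraMap ℚ ℚ_[l]) = (algebraMap ℚ ℚ_[l]).mapMatrix X := fun X => rfl
      rw [h5, map_sum]
      refine Finset.sum_congr rfl fun i _ => ?_
      rw [← h5, Matrix.map_mul]
    refine isSS_sum (rat (M.ρ l)) (fun i => rat ((M' i).ρ l))
      (fun i => (P i).map (algebraMap ℚ ℚ_[l])) (fun i => (Q i).map (algebraMap ℚ ℚ_[l])) h1
      (fun i g => ?_) (fun i => (hss i).1 l)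
    refine sum_inclusion (fun i => (P i).map (algebraMap ℚ ℚ_[l]))
      (fun i => (Q i).map (algebraMap ℚ ℚ_[l])) (fun i => ?_) (fun i j hij => ?_) h1
      (rat (M.ρ l) g) (fun i => rat ((M' i).ρ l) g) (fun i => hP i l g) i
    · rw [← Matrix.map_mul, hPQ, Matrix.map_one _ (map_zero _) (map_one _)]
    · rw [← Matrix.map_mul, hPQ0 i j hij, Matrix.map_zero _ (map_zero _)]
  · choose c1 hc1 using fun i => (hss i).2
    choose c2 hc2 using hhlp
    refine ⟨(∑ i, dens (P i)) + (∑ i, dens (Q i)) + (∑ i, c1 i) + ∑ i, ∑ j, c2 i j, ?_⟩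
    intro l hl hlt
    have hle : ∀ (f : Fin r → ℕ) (i : Fin r), f i ≤ ∑ i, f i := fun f i =>
      Finset.single_le_sum (f := f) (fun _ _ => Nat.zero_le _) (Finset.mem_univ i)
    have hlP : ∀ i, dens (P i) < l := fun i => by
      have := hle (fun i => dens (P i)) i
      omega
    have hlQ : ∀ i, dens (Q i) < l := fun i => by
      have := hle (fun i => dens (Q i)) i
      omega
    have hl1 : ∀ i, c1 i < l := fun i => by
      have := hle c1 i
      omega
    have hl2 : ∀ i j, c2 i j < l := fun i j => by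
      have h1 := hle (fun i => ∑ j, c2 i j) i
      have h2 := hle (fun j => c2 i j) j
      omega
    choose P' hP' using fun i => exists_lift (l := l) (P i) (hlP i)
    choose Q' hQ' using fun i => exists_lift (l := l) (Q i) (hlQ i)
    have hPQ' : ∀ i, P' i * Q' i = 1 := fun i => by
      apply map_inj_padic
      rw [Matrix.map_mul, hP', hQ', ← Matrix.map_mul, hPQ, Matrix.map_one _ (map_zero _) (map_one _),
        Matrix.map_one _ (map_zero _) (map_one _)]
    have hPQ0' : ∀ i j, i ≠ j → P' i * Q' j = 0 := fun i j hij => by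
      apply map_inj_padic
      rw [Matrix.map_mul, hP', hQ', ← Matrix.map_mul, hPQ0 i j hij, Matrix.map_zero _ (map_zero _),
        Matrix.map_zero _ (map_zero _)]
    have hQP' : ∑ i, Q' i * P' i = 1 := by
      apply map_inj_padic
      have h5 : ∀ X : Matrix (Fin n) (Fin n) ℤ_[l],
          X.map (algebraMap ℤ_[l] ℚ_[l]) = (algebraMap ℤ_[l] ℚ_[l]).mapMatrix X := fun X => rfl
      have h6 : ∀ X : Matrix (Fin n) (Fin n) ℚ,
          X.map (algebraMap ℚ ℚ_[l]) = (algebraMap ℚ ℚ_[l]).mapMatrix X := fun X => rfl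
      have h7 := congrArg (fun X : Matrix (Fin n) (Fin n) ℚ => X.map (algebraMap ℚ ℚ_[l])) hQP
      rw [Matrix.map_one _ (map_zero _) (map_one _)] at h7 ⊢
      rw [← h7, h5, h6, map_sum, map_sum]
      refine Finset.sum_congr rfl fun i _ => ?_
      rw [← h5, ← h6, Matrix.map_mul, Matrix.map_mul, hP', hQ']
    have hPr : ∀ i g, P' i * (M.ρ l g : Matrix (Fin n) (Fin n) ℤ_[l]) =
        ((M' i).ρ l g : Matrix (Fin (m i)) (Fin (m i)) ℤ_[l]) * P' i := fun i g => by
      apply map_inj_padic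
      rw [Matrix.map_mul, Matrix.map_mul, hP']
      exact hP i l g
    have hQr : ∀ i g, Q' i * ((M' i).ρ l g : Matrix (Fin (m i)) (Fin (m i)) ℤ_[l]) =
        (M.ρ l g : Matrix (Fin n) (Fin n) ℤ_[l]) * Q' i := fun i g =>
      sum_inclusion P' Q' hPQ' hPQ0' hQP' _ (fun i => ((M' i).ρ l g :
        Matrix (Fin (m i)) (Fin (m i)) ℤ_[l])) (fun i => hPr i g) i
    -- reductions
    have hresQP : ∑ i, (Q' i).map (PadicInt.toZMod (p := l)) *
        (P' i).map (PadicInt.toZMod (p := l)) = 1 := by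
      have h5 : ∀ X : Matrix (Fin n) (Fin n) ℤ_[l],
          X.map (PadicInt.toZMod (p := l)) = (PadicInt.toZMod (p := l)).mapMatrix X := fun X => rfl
      have h7 := congrArg (fun X : Matrix (Fin n) (Fin n) ℤ_[l] =>
        X.map (PadicInt.toZMod (p := l))) hQP'
      rw [Matrix.map_one _ (map_zero _) (map_one _)] at h7
      rw [← h7, h5, map_sum]
      refine Finset.sum_congr rfl fun i _ => ?_
      rw [← h5, Matrix.map_mul]
    have hresP : ∀ i g, (P' i).map (PadicInt.toZMod (p := l)) * res (M.ρ l) g =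
        res ((M' i).ρ l) g * (P' i).map (PadicInt.toZMod (p := l)) := fun i g => by
      have h7 := congrArg (fun X : Matrix (Fin (m i)) (Fin n) ℤ_[l] =>
        X.map (PadicInt.toZMod (p := l))) (hPr i g)
      rw [Matrix.map_mul, Matrix.map_mul] at h7
      exact h7
    have hresQ : ∀ i g, (Q' i).map (PadicInt.toZMod (p := l)) * res ((M' i).ρ l) g =
        res (M.ρ l) g * (Q' i).map (PadicInt.toZMod (p := l)) := fun i g => by
      have h7 := congrArg (fun X : Matrix (Fin n) (Fin (m i)) ℤ_[l] =>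
        X.map (PadicInt.toZMod (p := l))) (hQr i g)
      rw [Matrix.map_mul, Matrix.map_mul] at h7
      exact h7
    have hresSS : IsSS (res (M.ρ l)) :=
      isSS_sum (res (M.ρ l)) (fun i => res ((M' i).ρ l))
        (fun i => (P' i).map (PadicInt.toZMod (p := l)))
        (fun i => (Q' i).map (PadicInt.toZMod (p := l))) hresQP hresQ
        (fun i => hc1 i l (hl1 i))
    -- the liftable subspaces
    intro d B A hBA
    obtain ⟨D, hDB, hD⟩ := hresSS d B A hBA
    have hBD : ∀ g, B * D * res (M.ρ l) g = res (M.ρ l) g * (B * D) := fun g => by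
      rw [Matrix.mul_assoc, hD g, ← Matrix.mul_assoc, ← hBA.2 g, Matrix.mul_assoc]
    have hij : ∀ i j, ∃ x : Matrix (Fin (m i)) (Fin (m j)) ℤ_[l],
        x.map (PadicInt.toZMod (p := l)) = (P' i).map (PadicInt.toZMod (p := l)) * (B * D) *
          (Q' j).map (PadicInt.toZMod (p := l)) ∧
        ∀ g, x * ((M' j).ρ l g : Matrix (Fin (m j)) (Fin (m j)) ℤ_[l]) =
          ((M' i).ρ l g : Matrix (Fin (m i)) (Fin (m i)) ℤ_[l]) * x := by
      intro i j
      apply hc2 j i l (hl2 j i)
      intro g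
      rw [Matrix.mul_assoc, hresQ, ← Matrix.mul_assoc, Matrix.mul_assoc _ (B * D), hBD,
        ← Matrix.mul_assoc, hresP]
      simp only [Matrix.mul_assoc]
    choose x hx1 hx2 using hij
    let X : Matrix (Fin n) (Fin n) ℤ_[l] := ∑ i, ∑ j, Q' i * x i j * P' j
    have hXr : ∀ g, X * (M.ρ l g : Matrix (Fin n) (Fin n) ℤ_[l]) =
        (M.ρ l g : Matrix (Fin n) (Fin n) ℤ_[l]) * X := by
      intro g
      show (∑ i, ∑ j, Q' i * x i j * P' j) * _ = _ * (∑ i, ∑ j, Q' i * x i j * P' j)
      rw [Matrix.sum_mul, Matrix.mul_sum]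
      refine Finset.sum_congr rfl fun i _ => ?_
      rw [Matrix.sum_mul, Matrix.mul_sum]
      refine Finset.sum_congr rfl fun j _ => ?_
      rw [Matrix.mul_assoc, hPr, ← Matrix.mul_assoc, Matrix.mul_assoc (Q' i), hx2,
        ← Matrix.mul_assoc (Q' i), hQr]
      simp only [Matrix.mul_assoc]
    have hXbar : X.map (PadicInt.toZMod (p := l)) = B * D := by
      have h5 : ∀ Z : Matrix (Fin n) (Fin n) ℤ_[l],
          Z.map (PadicInt.toZMod (p := l)) = (PadicInt.toZMod (p := l)).mapMatrix Z := fun Z => rfl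
      show (∑ i, ∑ j, Q' i * x i j * P' j).map (PadicInt.toZMod (p := l)) = _
      rw [h5, map_sum]
      calc ∑ i, (PadicInt.toZMod (p := l)).mapMatrix (∑ j, Q' i * x i j * P' j)
          = ∑ i, ∑ j, ((Q' i).map (PadicInt.toZMod (p := l)) *
              (P' i).map (PadicInt.toZMod (p := l))) * (B * D) *
              ((Q' j).map (PadicInt.toZMod (p := l)) *
              (P' j).map (PadicInt.toZMod (p := l))) := by
            refine Finset.sum_congr rfl fun i _ => ?_
            rw [map_sum]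
            refine Finset.sum_congr rfl fun j _ => ?_
            rw [← h5, Matrix.map_mul, Matrix.map_mul, hx1]
            simp only [Matrix.mul_assoc]
        _ = (∑ i, ((Q' i).map (PadicInt.toZMod (p := l)) *
              (P' i).map (PadicInt.toZMod (p := l)))) * (B * D) *
            (∑ j, ((Q' j).map (PadicInt.toZMod (p := l)) *
              (P' j).map (PadicInt.toZMod (p := l)))) := by
            rw [Matrix.sum_mul, Matrix.sum_mul]
            refine Finset.sum_congr rfl fun i _ => ?_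
            rw [Matrix.mul_sum]
        _ = B * D := by rw [hresQP, Matrix.one_mul, Matrix.mul_one]
    obtain ⟨e, he1, he2, he3⟩ := hIDL n l X (by
      rw [hXbar]
      calc B * D * (B * D) = B * ((D * B) * D) := by simp only [Matrix.mul_assoc]
        _ = B * D := by rw [hDB, Matrix.one_mul])
    refine ⟨e, D, he1, fun g => ?_, ?_, hDB⟩
    · exact (he3 _ (hXr g).symm).symm
    · rw [he2, hXbar]

end REC
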